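import Pool.Agent.R877.RN.Stm2

set_option autoImplicit false

namespace R877.RN

namespace RICaux

section
variable {g : Type} [LieRing g] [LieAlgebra ℝ g] {ι : Type} [Fintype ι] [DecidableEq ι]
  (b : Module.Basis ι ℝ g) {B : g →ₗ[ℝ] g →ₗ[ℝ] ℝ} {D : g →ₗ[ℝ] g →ₗ[ℝ] g}

lemma koszul (hB : IsInner B) (hD : IsLC B D) (u v w : g) :
    2 * B (D u v) w = B ⁅u, v⁆ w - B ⁅v, w⁆ u + B ⁅w, u⁆ v := by
  rw [← hD.torsion u v, ← hD.torsion v w, ← hD.torsion w u]
  simp only [map_sub, LinearMap.sub_apply]
  have m1 := hD.metric u w v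
  have m2 := hD.metric v w u
  have m3 := hD.metric w v u
  rw [hB.symm w (D u v)] at m1
  rw [hB.symm w (D v u)] at m2
  rw [hB.symm v (D w u)] at m3
  linarith

lemma repr_eq (hb : ∀ i j, B (b i) (b j) = if i = j then 1 else 0) (v : g) (k : ι) :
    B v (b k) = b.repr v k := by
  conv_lhs => rw [← b.sum_repr v]
  rw [map_sum, LinearMap.sum_apply]
  simp only [map_smul, LinearMap.smul_apply, hb, smul_eq_mul, mul_ite, mul_one, mul_zero,
    Finset.sum_ite_eq', Finset.mem_univ, if_true]

lemma parseval (hb : ∀ i j, B (b i) (b j) = if i = j then 1 else 0) (u v : g) :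
    B u v = ∑ k, B u (b k) * B v (b k) := by
  conv_lhs => rw [← b.sum_repr v]
  rw [map_sum]
  apply Finset.sum_congr rfl
  intro k _
  rw [map_smul, smul_eq_mul, repr_eq b hb v k, mul_comm]

omit [DecidableEq ι] in
lemma antisum (E : ι → ι → ℝ) (h : ∀ i k, E k i = - E i k) : ∑ i, ∑ k, E i k = 0 := by
  have h1 : ∑ i, ∑ k, E i k = ∑ i, ∑ k, E k i := Finset.sum_comm
  have h2 : ∑ i, ∑ k, E k i = - ∑ i, ∑ k, E i k := by
    rw [← Finset.sum_neg_distrib]
    apply Finset.sum_congr rfl
    intro i _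
    rw [← Finset.sum_neg_distrib]
    apply Finset.sum_congr rfl
    intro k _
    exact h i k
  linarith

end

end RICaux

open RICaux in
theorem p_RIC : P_RIC := by
  intro g _ _ ι _ _ b B D hB hD hb x
  set a : ι → ι → ℝ := fun i k => B ⁅x, b i⁆ (b k) with ha
  set J : ι → ι → ℝ := fun i j => B ⁅b i, b j⁆ x with hJ
  have hx : x = ∑ p, b.repr x p • b p := (b.sum_repr x).symm
  have ha' : ∀ i k, a i k = ∑ p, b.repr x p * sc b p i k := by
    intro i k
    simp only [ha]
    rw [repr_eq b hb]
    conv_lhs => rw [hx]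
    rw [sum_lie, map_sum, Finsupp.finsetSum_apply]
    apply Finset.sum_congr rfl
    intro p _
    rw [smul_lie, map_smul, Finsupp.smul_apply, smul_eq_mul]
    rfl
  have hJ' : ∀ i j, J i j = ∑ k, b.repr x k * sc b i j k := by
    intro i j
    simp only [hJ]
    rw [parseval b hb]
    apply Finset.sum_congr rfl
    intro k _
    rw [repr_eq b hb, repr_eq b hb, mul_comm]
    rfl
  have hc : ∀ i j k, sc b i j k = B ⁅b i, b j⁆ (b k) := by
    intro i j k
    rw [repr_eq b hb]; rfl
  -- the connection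
  have hK : ∀ i k, B (D x (b i)) (b k) = (a i k - a k i - J i k) / 2 := by
    intro i k
    have h := koszul hB hD x (b i) (b k)
    simp only [ha, hJ]
    have h2 : B ⁅b k, x⁆ (b i) = - B ⁅x, b k⁆ (b i) := by
      rw [← lie_skew, map_neg, LinearMap.neg_apply]
    rw [h2] at h
    linarith
  have hN : ∀ i k, B (D (b i) x) (b k) = B (D x (b i)) (b k) - a i k := by
    intro i k
    have h := hD.torsion x (b i)
    have h2 : D (b i) x = D x (b i) - ⁅x, b i⁆ := by rw [← h]; abel
    rw [h2, map_sub, LinearMap.sub_apply]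
  have hJs : ∀ i k, J k i = - J i k := by
    intro i k
    simp only [hJ]
    rw [← lie_skew, map_neg, LinearMap.neg_apply]
  -- the trace
  have htr : ric D x x = ∑ i, B (curvEnd D x x (b i)) (b i) := by
    unfold ric
    rw [LinearMap.trace_eq_matrix_trace ℝ b, Matrix.trace]
    apply Finset.sum_congr rfl
    intro i _
    rw [Matrix.diag_apply, LinearMap.toMatrix_apply, repr_eq b hb]
  have hcv : ∀ i, B (curvEnd D x x (b i)) (b i) = B (D (b i) (D x x)) (b i) -
      B (D x (D (b i) x)) (b i) - B (D ⁅b i, x⁆ x) (b i) := by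
    intro i
    change B (D (b i) (D x x) - D x (D (b i) x) - D ⁅b i, x⁆ x) (b i) = _
    simp only [map_sub, LinearMap.sub_apply]
  -- term one
  have t1 : ∑ i, B (D (b i) (D x x)) (b i) = - ∑ c, (∑ i, sc b c i i) *
      ∑ p, ∑ q, b.repr x p * sc b c p q * b.repr x q := by
    have e1 : ∀ i, B (D (b i) (D x x)) (b i) = - ∑ c, B (D x x) (b c) * sc b c i i := by
      intro i
      have h := koszul hB hD (b i) (D x x) (b i)
      have h2 : B ⁅b i, D x x⁆ (b i) = - B ⁅D x x, b i⁆ (b i) := by
        rw [← lie_skew, map_neg, LinearMap.neg_apply]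
      rw [lie_self, map_zero, LinearMap.zero_apply, h2] at h
      have h3 : B (D (b i) (D x x)) (b i) = - B ⁅D x x, b i⁆ (b i) := by linarith
      rw [h3]
      congr 1
      have h4 : D x x = ∑ c, B (D x x) (b c) • b c := by
        conv_lhs => rw [← b.sum_repr (D x x)]
        apply Finset.sum_congr rfl
        intro c _
        rw [repr_eq b hb]
      conv_lhs => rw [h4]
      rw [sum_lie, map_sum, LinearMap.sum_apply]
      apply Finset.sum_congr rfl
      intro c _
      rw [smul_lie, map_smul, LinearMap.smul_apply, smul_eq_mul, hc]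
    have e2 : ∀ c, B (D x x) (b c) = ∑ p, ∑ q, b.repr x p * sc b c p q * b.repr x q := by
      intro c
      have h := koszul hB hD x x (b c)
      have h2 : B ⁅b c, x⁆ x = - B ⁅x, b c⁆ x := by
        rw [← lie_skew, map_neg, LinearMap.neg_apply]
      rw [lie_self, map_zero, LinearMap.zero_apply] at h
      have h3 : B (D x x) (b c) = B ⁅b c, x⁆ x := by linarith
      rw [h3]
      conv_lhs => rw [show ⁅b c, x⁆ = ∑ p, b.repr x p • ⁅b c, b p⁆ by
        conv_lhs => rw [hx]
        rw [lie_sum]
        apply Finset.sum_congr rfl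
        intro p _
        rw [lie_smul]]
      rw [map_sum, LinearMap.sum_apply]
      apply Finset.sum_congr rfl
      intro p _
      rw [map_smul, LinearMap.smul_apply, smul_eq_mul]
      have h5 : B ⁅b c, b p⁆ x = ∑ q, sc b c p q * b.repr x q := by
        have := hJ' c p
        simp only [hJ] at this
        rw [this]
        apply Finset.sum_congr rfl
        intro q _
        rw [mul_comm]
      rw [h5, Finset.mul_sum]
      apply Finset.sum_congr rfl
      intro q _
      ring
    simp only [e1, Finset.sum_neg_distrib]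
    congr 1
    rw [Finset.sum_comm]
    apply Finset.sum_congr rfl
    intro c _
    rw [← Finset.mul_sum, e2, mul_comm]
  -- term two
  have t2 : ∀ i, - B (D x (D (b i) x)) (b i) =
      ∑ k, (B (D x (b i)) (b k) - a i k) * B (D x (b i)) (b k) := by
    intro i
    have h := hD.metric x (D (b i) x) (b i)
    have h2 : - B (D x (D (b i) x)) (b i) = B (D (b i) x) (D x (b i)) := by linarith
    rw [h2, parseval b hb]
    apply Finset.sum_congr rfl
    intro k _
    rw [hN]
  -- term three
  have t3 : ∀ i, - B (D ⁅b i, x⁆ x) (b i) =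
      ∑ k, a i k * (B (D x (b k)) (b i) - a k i) := by
    intro i
    have h1 : ⁅b i, x⁆ = - ∑ k, a i k • b k := by
      rw [← lie_skew]
      congr 1
      conv_lhs => rw [← b.sum_repr ⁅x, b i⁆]
      apply Finset.sum_congr rfl
      intro k _
      simp only [ha]
      rw [repr_eq b hb]
    rw [h1]
    simp only [map_neg, LinearMap.neg_apply, neg_neg, map_sum, LinearMap.sum_apply, map_smul,
      LinearMap.smul_apply, smul_eq_mul]
    apply Finset.sum_congr rfl
    intro k _
    rw [hN]
  rw [htr]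
  simp only [hcv]
  have hsplit : ∑ i, (B (D (b i) (D x x)) (b i) - B (D x (D (b i) x)) (b i) -
      B (D ⁅b i, x⁆ x) (b i)) = ∑ i, B (D (b i) (D x x)) (b i) +
      ∑ i, ∑ k, ((B (D x (b i)) (b k) - a i k) * B (D x (b i)) (b k) +
        a i k * (B (D x (b k)) (b i) - a k i)) := by
    rw [← Finset.sum_add_distrib]
    apply Finset.sum_congr rfl
    intro i _
    rw [Finset.sum_add_distrib, ← t2, ← t3]
    ring
  rw [hsplit, t1]
  unfold RF
  simp only [← ha', ← hJ']
  have hfin : ∑ i, ∑ k, ((B (D x (b i)) (b k) - a i k) * B (D x (b i)) (b k) +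
        a i k * (B (D x (b k)) (b i) - a k i)) =
      -(1/2) * ∑ i, ∑ k, (a i k) ^ 2 - (1/2) * ∑ i, ∑ k, a i k * a k i +
        (1/4) * ∑ i, ∑ j, (J i j) ^ 2 := by
    have hE := antisum (fun i k => (1/4) * ((a k i) ^ 2 - (a i k) ^ 2) +
      (1/2) * J i k * (a k i + a i k)) (by
        intro i k
        rw [hJs i k]
        ring)
    have key : ∀ i k, ((B (D x (b i)) (b k) - a i k) * B (D x (b i)) (b k) +
        a i k * (B (D x (b k)) (b i) - a k i)) =
        (-(1/2) * (a i k) ^ 2 - (1/2) * (a i k * a k i) + (1/4) * (J i k) ^ 2) +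
        ((1/4) * ((a k i) ^ 2 - (a i k) ^ 2) + (1/2) * J i k * (a k i + a i k)) := by
      intro i k
      rw [hK i k, hK k i, hJs i k]
      ring
    have s1 : ∑ i, ∑ k, ((B (D x (b i)) (b k) - a i k) * B (D x (b i)) (b k) +
        a i k * (B (D x (b k)) (b i) - a k i)) =
        ∑ i, ∑ k, (-(1/2) * (a i k) ^ 2 - (1/2) * (a i k * a k i) + (1/4) * (J i k) ^ 2) +
        ∑ i, ∑ k, ((1/4) * ((a k i) ^ 2 - (a i k) ^ 2) + (1/2) * J i k * (a k i + a i k)) := by
      rw [← Finset.sum_add_distrib]
      apply Finset.sum_congr rfl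
      intro i _
      rw [← Finset.sum_add_distrib]
      apply Finset.sum_congr rfl
      intro k _
      exact key i k
    have s2 : ∑ i, ∑ k, (-(1/2) * (a i k) ^ 2 - (1/2) * (a i k * a k i) + (1/4) * (J i k) ^ 2) =
        -(1/2) * ∑ i, ∑ k, (a i k) ^ 2 - (1/2) * ∑ i, ∑ k, a i k * a k i +
        (1/4) * ∑ i, ∑ j, (J i j) ^ 2 := by
      simp only [Finset.mul_sum, Finset.sum_add_distrib, Finset.sum_sub_distrib]
    rw [s1, s2, hE, add_zero]
  rw [hfin]
  ring

end R877.RN
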